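import Pool.Agent.Helper27.RV.St

/-! Module UND of project RV: unions of at most `ℵ₁` small sets are small. -/

set_option autoImplicit false

open Cardinal Ordinal Set

universe u

namespace Pool.Agent.Helper54.RV

open Pool.Agent.Helper27.RV

theorem pUND (h1 : StSUBD.{u}) : StUND.{u} := by
  intro K m L Q J c B hJ hQ hB
  classical
  have hex : ∀ l : (⋃ q, B q : Set L), ∃ q, (l : L) ∈ B q := fun l => mem_iUnion.1 l.2
  choose i hi using hex
  let B' : Q → Set L := fun q => {l | ∃ h : l ∈ (⋃ q, B q : Set L), i ⟨l, h⟩ = q}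
  have hsub : ∀ q, B' q ⊆ B q := by
    rintro q l ⟨h, rfl⟩
    exact hi ⟨l, h⟩
  have hs : ∀ q, Pool.Agent.Helper27.RV.Small K m J c (B' q) := fun q => h1 K m L J c (B q) (B' q) (hB q) (hsub q)
  unfold Pool.Agent.Helper27.RV.Small at hs
  choose L' p J' c' h using hs
  refine ⟨Σ q, L' q, fun y => p y.1 y.2, {Y | ∀ q, Sigma.mk q ⁻¹' Y ∈ J' q},
    fun y => c' y.1 y.2, ⟨?_, ?_⟩, ?_, ?_, ?_, ?_, ?_⟩
  · intro A C hAC hC q
    exact (h q).1.sub _ _ (preimage_mono hAC) (hC q)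
  · intro R F hR hF q
    rw [preimage_iUnion]
    exact (h q).1.un _ _ hR (fun j => hF j q)
  · rintro ⟨q, y⟩
    obtain ⟨hl, -⟩ := (h q).2.1 y
    exact hl
  · intro l
    by_cases hl : l ∈ (⋃ q, B q : Set L)
    · refine ((h (i ⟨l, hl⟩)).2.2.1 l |>.image (Sigma.mk (i ⟨l, hl⟩))).mono ?_
      rintro ⟨q, y⟩ hy
      have hy' : p q y = l := hy
      obtain ⟨h2, h3⟩ := (h q).2.1 y
      have h4 : i ⟨l, hl⟩ = q := by
        refine Eq.trans ?_ h3
        congr 1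
        exact Subtype.ext hy'.symm
      clear h3 h2
      subst h4
      exact ⟨y, hy', rfl⟩
    · refine (countable_empty).mono ?_
      rintro ⟨q, y⟩ hy
      have hy' : p q y = l := hy
      obtain ⟨h2, -⟩ := (h q).2.1 y
      rw [hy'] at h2
      exact hl h2
  · intro X hX hXJ
    have h2 : X ⊆ ⋃ q, X ∩ B' q := by
      intro l hl
      exact mem_iUnion.2 ⟨i ⟨l, hX hl⟩, hl, hX hl, rfl⟩
    refine hJ.sub _ _ h2 (hJ.un Q _ hQ fun q => ?_)
    refine (h q).2.2.2.1 (X ∩ B' q) inter_subset_right ?_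
    exact (h q).1.sub _ _ (fun y hy => hy.1) (hXJ q)
  · rintro ⟨q, y⟩
    exact (h q).2.2.2.2.1 y
  · intro ι hι E
    choose S hS1 hS2 using fun q => (h q).2.2.2.2.2 ι hι (fun i y => E i ⟨q, y⟩)
    refine ⟨fun y => S y.1 y.2, fun y _ n => hS1 y.1 y.2 trivial n, ?_⟩
    rintro Y - ⟨I, hI, hc⟩ q
    exact hS2 q _ (subset_univ _) ⟨I, hI, fun y hy n => hc ⟨q, y⟩ hy n⟩

end Pool.Agent.Helper54.RV
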